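import Mathlib

/-!
Cyclic products of `2 × 2` minors in a commutative ring in which `4 = 0` and in which all the
squares of the entries are divisible by `2`.
-/

namespace Pool.Agent.MP3fd305

/-- In a commutative ring with `4 = 0` let `α i ^ 2 = 2 * A i` and `β i ^ 2 = 2 * B i`.  The
chain product `∏_{i<k} (α i β (i+1) - β i α (i+1))`, closed up with an arbitrary last vector
`(x, y)`, has the displayed shape. -/
theorem chain_aux {S : Type*} [CommRing S] (h4 : (4 : S) = 0) (α β A B : ℕ → S)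
    (hα : ∀ i, α i ^ 2 = 2 * A i) (hβ : ∀ i, β i ^ 2 = 2 * B i) (k : ℕ) :
    ∃ E F : S, ∀ x y : S,
      (∏ i ∈ Finset.range k, (α i * β (i + 1) - β i * α (i + 1))) * (α k * y - β k * x) =
        (α 0 * (∏ i ∈ Finset.range k, α (i + 1) * β (i + 1)) + 2 * E * β 0) * y -
        ((-1) ^ k * β 0 * (∏ i ∈ Finset.range k, α (i + 1) * β (i + 1)) + 2 * F * α 0) * x := by
  induction k with
  | zero => exact ⟨0, 0, fun x y => by simp⟩
  | succ k ih =>
    obtain ⟨E, F, h⟩ := ih
    set P : S := ∏ i ∈ Finset.range k, α (i + 1) * β (i + 1) with hP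
    refine ⟨E * (α (k + 1) * β (k + 1)) - A (k + 1) * (-1) ^ k * P,
      B (k + 1) * P - F * (α (k + 1) * β (k + 1)), fun x y => ?_⟩
    have h1 := h (α (k + 1)) (β (k + 1))
    have hA := hα (k + 1)
    have hB := hβ (k + 1)
    rw [Finset.prod_range_succ, Finset.prod_range_succ, ← hP]
    have e : (∏ i ∈ Finset.range k, (α i * β (i + 1) - β i * α (i + 1))) *
        (α k * β (k + 1) - β k * α (k + 1)) * (α (k + 1) * y - β (k + 1) * x) =
        ((α 0 * P + 2 * E * β 0) * β (k + 1) -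
        ((-1) ^ k * β 0 * P + 2 * F * α 0) * α (k + 1)) * (α (k + 1) * y - β (k + 1) * x) := by
      rw [h1]
    rw [e]
    have key : ((α 0 * P + 2 * E * β 0) * β (k + 1) -
        ((-1) ^ k * β 0 * P + 2 * F * α 0) * α (k + 1)) * (α (k + 1) * y - β (k + 1) * x) =
        (α 0 * P + 2 * E * β 0) * (α (k + 1) * β (k + 1)) * y -
        (α 0 * P + 2 * E * β 0) * β (k + 1) ^ 2 * x -
        ((-1) ^ k * β 0 * P + 2 * F * α 0) * α (k + 1) ^ 2 * y +
        ((-1) ^ k * β 0 * P + 2 * F * α 0) * (α (k + 1) * β (k + 1)) * x := by ring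
    rw [key, hA, hB]
    have h4' : ∀ z : S, 4 * z = 0 := fun z => by rw [h4, zero_mul]
    linear_combination (-(E * β 0 * B (k + 1) * x) - F * α 0 * A (k + 1) * y) * h4

/-- The cyclic product of minors. -/
theorem cyc_prod {S : Type*} [CommRing S] (h4 : (4 : S) = 0) (α β A B : ℕ → S)
    (hα : ∀ i, α i ^ 2 = 2 * A i) (hβ : ∀ i, β i ^ 2 = 2 * B i) (m : ℕ) (hm : 1 ≤ m) :
    ∏ i ∈ Finset.range m, (α i * β ((i + 1) % m) - β i * α ((i + 1) % m)) =
      (1 + (-1) ^ m) * ∏ i ∈ Finset.range m, α i * β i := by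
  obtain ⟨k, rfl⟩ : ∃ k, m = k + 1 := ⟨m - 1, by omega⟩
  obtain ⟨E, F, h⟩ := chain_aux h4 α β A B hα hβ k
  have h1 := h (α 0) (β 0)
  have hleft : ∏ i ∈ Finset.range (k + 1),
      (α i * β ((i + 1) % (k + 1)) - β i * α ((i + 1) % (k + 1))) =
      (∏ i ∈ Finset.range k, (α i * β (i + 1) - β i * α (i + 1))) *
        (α k * β 0 - β k * α 0) := by
    rw [Finset.prod_range_succ]
    congr 1
    · refine Finset.prod_congr rfl fun i hi => ?_
      rw [Finset.mem_range] at hi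
      rw [Nat.mod_eq_of_lt (by omega)]
    · rw [Nat.mod_self]
  rw [hleft, h1, Finset.prod_range_succ']
  have hA := hα 0
  have hB := hβ 0
  have key : (α 0 * (∏ i ∈ Finset.range k, α (i + 1) * β (i + 1)) + 2 * E * β 0) * β 0 -
        ((-1) ^ k * β 0 * (∏ i ∈ Finset.range k, α (i + 1) * β (i + 1)) + 2 * F * α 0) * α 0 =
      (1 + (-1) ^ (k + 1)) * ((∏ i ∈ Finset.range k, α (i + 1) * β (i + 1)) * (α 0 * β 0)) +
        2 * E * β 0 ^ 2 - 2 * F * α 0 ^ 2 := by ring
  rw [key, hA, hB]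
  linear_combination (E * B 0 - F * A 0) * h4

end Pool.Agent.MP3fd305
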