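import Mathlib
import Pool.Agent.Lib.MP_3fd305_al.Cyc

/-!
A commutative ring with an additive two-variable map `B` whose antisymmetrisation `w` has
vanishing cyclic products of length `m` for `3 ≤ m < n` and a non-vanishing cyclic product of
length `n` (`n` even), together with elements `t i` of square zero.
-/

namespace Pool.Agent.MP3fd305

open MvPolynomial Finset

/-- Target ring: variables `(j,0) = a_j`, `(j,1) = b_j`, `(j,2) = t_j` over `ℤ/4`. -/
abbrev CR (n : ℕ) := MvPolynomial (Fin n × Fin 3) (ZMod 4)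

/-- Source ring: a variable for every pair `(j,k)` and a variable for every label `i`. -/
abbrev RR (n : ℕ) := MvPolynomial ((Fin n × Fin n) ⊕ Fin n) ℤ

variable {n : ℕ}

/-- exponent vector with all exponents one -/
noncomputable def ones (n : ℕ) : (Fin n × Fin 3) →₀ ℕ := Finsupp.equivFunOnFinite.symm fun _ => 1

@[simp] theorem ones_apply (s : Fin n × Fin 3) : ones n s = 1 := rfl

/-- coefficient of the monomial in which every variable has exponent one -/
noncomputable def top (p : CR n) : ZMod 4 := coeff (ones n) p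

theorem top_add (p q : CR n) : top (p + q) = top p + top q := coeff_add _ _ _
theorem top_sub (p q : CR n) : top (p - q) = top p - top q := coeff_sub _ _ _ _

theorem top_two_mul (p : CR n) : top (2 * p) = 2 * top p := by
  rw [two_mul, top_add, two_mul]

theorem top_mul_sq (p : CR n) (s : Fin n × Fin 3) : top (p * X s ^ 2) = 0 := by
  classical
  unfold top
  rw [pow_two, ← mul_assoc, coeff_mul_X', if_pos (by simp), coeff_mul_X', if_neg]
  simp

/-- ideal generated by the squares of the variables -/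
noncomputable def Sq (n : ℕ) : Ideal (CR n) := Ideal.span (Set.range fun s => (X s : CR n) ^ 2)

theorem top_of_mem_Sq {p : CR n} (hp : p ∈ Sq n) : top p = 0 := by
  unfold Sq at hp
  induction hp using Submodule.span_induction with
  | mem x h =>
    obtain ⟨s, rfl⟩ := h
    simpa using top_mul_sq (1 : CR n) s
  | zero => simp [top]
  | add x y _ _ hx hy => rw [top_add, hx, hy, add_zero]
  | smul a x hx' hx =>
    -- need the stronger statement; handled by a separate induction below
    clear hx
    have : ∀ y ∈ Submodule.span (CR n) (Set.range fun s => (X s : CR n) ^ 2),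
        ∀ a : CR n, top (a * y) = 0 := by
      intro y hy
      induction hy using Submodule.span_induction with
      | mem x h =>
        obtain ⟨s, rfl⟩ := h
        intro a; exact top_mul_sq a s
      | zero => intro a; simp [top]
      | add x y _ _ hx hy => intro a; rw [mul_add, top_add, hx, hy, add_zero]
      | smul b x _ hx => intro a; rw [smul_eq_mul, ← mul_assoc]; exact hx _
    exact this x hx' a

theorem top_eq_of_mk {p q : CR n}
    (h : Ideal.Quotient.mk (Sq n) p = Ideal.Quotient.mk (Sq n) q) : top p = top q := by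
  rw [Ideal.Quotient.eq] at h
  have := top_of_mem_Sq h
  rw [top_sub] at this
  exact sub_eq_zero.1 this

/-- `Σ v_j a_j` -/
noncomputable def al (v : Fin n → ℤ) : CR n := ∑ j, C (v j : ZMod 4) * X (j, 0)
/-- `Σ v_j b_j` -/
noncomputable def be (v : Fin n → ℤ) : CR n := ∑ j, C (v j : ZMod 4) * X (j, 1)

theorem sq_sum {R ι : Type*} [CommRing R] (s : Finset ι) (x : ι → R) :
    ∃ A : R, (∑ j ∈ s, x j) ^ 2 = (∑ j ∈ s, x j ^ 2) + 2 * A := by
  classical
  induction s using Finset.induction_on with
  | empty => exact ⟨0, by simp⟩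
  | insert a s ha ih =>
    obtain ⟨A, hA⟩ := ih
    refine ⟨A + x a * ∑ j ∈ s, x j, ?_⟩
    rw [sum_insert ha, sum_insert ha, add_sq, hA]
    ring

theorem mk_sq_zero (s : Fin n × Fin 3) :
    (Ideal.Quotient.mk (Sq n) (X s)) ^ 2 = 0 := by
  rw [← map_pow, Ideal.Quotient.eq_zero_iff_mem]
  exact Ideal.subset_span ⟨s, rfl⟩

theorem al_sq (v : Fin n → ℤ) : ∃ A, (Ideal.Quotient.mk (Sq n) (al v)) ^ 2 = 2 * A := by
  obtain ⟨A, hA⟩ := sq_sum (Finset.univ) fun j =>
    Ideal.Quotient.mk (Sq n) (C (v j : ZMod 4) * X (j, 0))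
  refine ⟨A, ?_⟩
  rw [al, map_sum, hA, Finset.sum_eq_zero, zero_add]
  intro j _
  rw [map_mul, mul_pow, mk_sq_zero, mul_zero]

theorem be_sq (v : Fin n → ℤ) : ∃ A, (Ideal.Quotient.mk (Sq n) (be v)) ^ 2 = 2 * A := by
  obtain ⟨A, hA⟩ := sq_sum (Finset.univ) fun j =>
    Ideal.Quotient.mk (Sq n) (C (v j : ZMod 4) * X (j, 1))
  refine ⟨A, ?_⟩
  rw [be, map_sum, hA, Finset.sum_eq_zero, zero_add]
  intro j _
  rw [map_mul, mul_pow, mk_sq_zero, mul_zero]

theorem four_CR : (4 : CR n) = 0 := by
  have : (4 : CR n) = C (4 : ZMod 4) := (map_ofNat C 4).symm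
  rw [this, show (4 : ZMod 4) = 0 from rfl, C_0]

/-- the cyclic product of the minors `al v_i * be v_{i+1} - be v_i * al v_{i+1}` -/
theorem top_cyc (g : CR n) (v : ℕ → Fin n → ℤ) (m : ℕ) (hm : 1 ≤ m) :
    top (g * ∏ i ∈ range m,
      (al (v i) * be (v ((i + 1) % m)) - be (v i) * al (v ((i + 1) % m)))) =
    top (g * ((1 + (-1) ^ m) * ∏ i ∈ range m, al (v i) * be (v i))) := by
  apply top_eq_of_mk
  choose A hA using fun i => al_sq (v i)
  choose B hB using fun i => be_sq (v i)
  have h4 : (4 : CR n ⧸ Sq n) = 0 := by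
    have := congrArg (Ideal.Quotient.mk (Sq n)) (four_CR (n := n))
    rw [map_zero] at this
    rw [← this]
    exact (map_ofNat (Ideal.Quotient.mk (Sq n)) 4).symm
  have := cyc_prod h4 (fun i => Ideal.Quotient.mk (Sq n) (al (v i)))
    (fun i => Ideal.Quotient.mk (Sq n) (be (v i))) A B hA hB m hm
  simp only [map_mul, map_prod, map_sub, map_add, map_one, map_pow, map_neg] at this ⊢
  rw [this]

/-! ### the symmetry exchanging `a` and `b` -/

/-- exchange of the indices `0` and `1` -/
def tau (n : ℕ) : (Fin n × Fin 3) ≃ (Fin n × Fin 3) :=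
  Equiv.prodCongr (Equiv.refl _) (Equiv.swap 0 1)

@[simp] theorem tau_zero (j : Fin n) : tau n (j, 0) = (j, 1) := by simp [tau]
@[simp] theorem tau_one (j : Fin n) : tau n (j, 1) = (j, 0) := by simp [tau]
@[simp] theorem tau_two (j : Fin n) : tau n (j, 2) = (j, 2) := by
  simp only [tau, Equiv.prodCongr_apply, Prod.map_apply, Equiv.refl_apply, Prod.mk.injEq,
    true_and]
  decide

/-- the automorphism exchanging `a` and `b` -/
noncomputable def sig (n : ℕ) : CR n →ₐ[ZMod 4] CR n := rename (tau n)

theorem sig_al (v : Fin n → ℤ) : sig n (al v) = be v := by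
  simp [sig, al, be, map_sum]

theorem sig_be (v : Fin n → ℤ) : sig n (be v) = al v := by
  simp [sig, al, be, map_sum]

theorem top_sig (p : CR n) : top (sig n p) = top p := by
  unfold top sig
  have h : ones n = (ones n).mapDomain (tau n) := by
    ext s
    obtain ⟨s', rfl⟩ := (tau n).surjective s
    rw [Finsupp.mapDomain_apply (tau n).injective]
    simp
  conv_lhs => rw [h]
  rw [coeff_rename_mapDomain _ (tau n).injective]

/-- the ring homomorphism `X_{jk} ↦ a_j b_k - b_j a_k` (`j < k`), `T_i ↦ t_i` -/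
noncomputable def Phi (n : ℕ) : RR n →+* CR n :=
  eval₂Hom (Int.castRingHom _) (Sum.elim
    (fun jk => if jk.1 < jk.2 then X (jk.1, 0) * X (jk.2, 1) - X (jk.1, 1) * X (jk.2, 0) else 0)
    (fun i => X (i, 2)))

theorem Phi_inl (jk : Fin n × Fin n) : Phi n (X (Sum.inl jk)) =
    if jk.1 < jk.2 then X (jk.1, 0) * X (jk.2, 1) - X (jk.1, 1) * X (jk.2, 0) else 0 := by
  simp [Phi]

theorem Phi_inr (i : Fin n) : Phi n (X (Sum.inr i)) = X (i, 2) := by
  simp [Phi]

theorem two_sig_Phi (g : RR n) : 2 * sig n (Phi n g) = 2 * Phi n g := by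
  induction g using MvPolynomial.induction_on with
  | C a => simp [Phi, sig]
  | add p q hp hq => simp only [map_add, mul_add, hp, hq]
  | mul_X p s hp =>
    have hs : 2 * sig n (Phi n (X s)) = 2 * Phi n (X s) := by
      rcases s with jk | i
      · rw [Phi_inl]
        split_ifs with h
        · have e : sig n (X (jk.1, 0) * X (jk.2, 1) - X (jk.1, 1) * X (jk.2, 0)) =
              X (jk.1, 1) * X (jk.2, 0) - X (jk.1, 0) * X (jk.2, 1) := by
            simp [sig]
          rw [e]
          linear_combination (X (jk.1, 1) * X (jk.2, 0) - X (jk.1, 0) * X (jk.2, 1)) *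
            four_CR (n := n)
        · simp
      · rw [Phi_inr]; simp [sig]
    rw [map_mul, map_mul]
    calc 2 * (sig n (Phi n p) * sig n (Phi n (X s)))
        = (2 * sig n (Phi n p)) * sig n (Phi n (X s)) := by ring
      _ = Phi n p * (2 * sig n (Phi n (X s))) := by rw [hp]; ring
      _ = 2 * (Phi n p * Phi n (X s)) := by rw [hs]; ring

/-- `Γ = ∏ al v_i * be v_i` -/
noncomputable def Gam (m : ℕ) (v : ℕ → Fin n → ℤ) : CR n := ∏ i ∈ range m, al (v i) * be (v i)

theorem sig_Gam (m : ℕ) (v : ℕ → Fin n → ℤ) : sig n (Gam m v) = Gam m v := by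
  unfold Gam
  rw [map_prod]
  refine prod_congr rfl fun i _ => ?_
  rw [map_mul, sig_al, sig_be, mul_comm]

theorem edge_case (g : RR n) (m : ℕ) (v : ℕ → Fin n → ℤ) (jk : Fin n × Fin n) :
    2 * top (Phi n (g * X (Sum.inl jk)) * Gam m v) = 0 := by
  rw [map_mul, Phi_inl]
  split_ifs with h
  · set q := Phi n g * Gam m v with hq
    have h2 : 2 * sig n q = 2 * q := by
      rw [hq, map_mul, sig_Gam, ← mul_assoc, two_sig_Phi, mul_assoc]
    have e : Phi n g * (X (jk.1, 0) * X (jk.2, 1) - X (jk.1, 1) * X (jk.2, 0)) * Gam m v =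
        q * (X (jk.1, 0) * X (jk.2, 1)) - q * (X (jk.1, 1) * X (jk.2, 0)) := by
      rw [hq]; ring
    rw [e, top_sub]
    have f : top (q * (X (jk.1, 1) * X (jk.2, 0))) =
        top (sig n q * (X (jk.1, 0) * X (jk.2, 1))) := by
      rw [← top_sig (q * (X (jk.1, 1) * X (jk.2, 0)))]
      simp [sig]
    have f2 : 2 * top (sig n q * (X (jk.1, 0) * X (jk.2, 1))) =
        2 * top (q * (X (jk.1, 0) * X (jk.2, 1))) := by
      rw [← top_two_mul, ← top_two_mul, ← mul_assoc, ← mul_assoc 2 q, h2]
    rw [f, mul_sub, f2, sub_self]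
  · simp [top]

/-- the `b`-weight -/
def wt (n : ℕ) : (Fin n × Fin 3) → ℕ := fun s => if s.2 = 1 then 1 else 0

theorem al_wt (v : Fin n → ℤ) : IsWeightedHomogeneous (wt n) (al v) 0 := by
  unfold al
  refine IsWeightedHomogeneous.sum _ _ _ fun j _ => ?_
  have := (isWeightedHomogeneous_C (wt n) (v j : ZMod 4)).mul
    (isWeightedHomogeneous_X (ZMod 4) (wt n) (j, 0))
  simpa [wt] using this

theorem be_wt (v : Fin n → ℤ) : IsWeightedHomogeneous (wt n) (be v) 1 := by
  unfold be
  refine IsWeightedHomogeneous.sum _ _ _ fun j _ => ?_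
  have := (isWeightedHomogeneous_C (wt n) (v j : ZMod 4)).mul
    (isWeightedHomogeneous_X (ZMod 4) (wt n) (j, 1))
  simpa [wt] using this

theorem Gam_wt (m : ℕ) (v : ℕ → Fin n → ℤ) : IsWeightedHomogeneous (wt n) (Gam m v) m := by
  unfold Gam
  have := IsWeightedHomogeneous.prod (w := wt n) (range m) (fun i => al (v i) * be (v i))
    (fun _ => 1) (fun i _ => by simpa using (al_wt (v i)).mul (be_wt (v i)))
  simpa using this

theorem weight_ones : Finsupp.weight (wt n) (ones n) = n := by
  rw [Finsupp.weight_apply, Finsupp.sum_fintype _ _ (by simp)]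
  simp only [ones_apply, one_smul, wt]
  rw [Fintype.sum_prod_type]
  simp

theorem label_case (d : ((Fin n × Fin n) ⊕ Fin n) →₀ ℕ) (c : ℤ) (hd : ∀ jk, d (Sum.inl jk) = 0)
    (m : ℕ) (hm : m ≠ n) (v : ℕ → Fin n → ℤ) :
    top (Phi n (monomial d c) * Gam m v) = 0 := by
  have h1 : IsWeightedHomogeneous (wt n) (Phi n (monomial d c)) 0 := by
    unfold Phi
    rw [eval₂Hom_monomial, Finsupp.prod]
    have h2 := IsWeightedHomogeneous.prod (w := wt n) d.support (fun s => (Sum.elim
      (fun jk : Fin n × Fin n =>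
        if jk.1 < jk.2 then (X (jk.1, 0) * X (jk.2, 1) - X (jk.1, 1) * X (jk.2, 0) : CR n) else 0)
      (fun i => X (i, 2)) s) ^ (d s)) (fun _ => 0) (by
        intro s hs
        rcases s with jk | i
        · exact absurd (hd jk) (Finsupp.mem_support_iff.1 hs)
        · have := (isWeightedHomogeneous_X (ZMod 4) (wt n) (i, 2)).pow (d (Sum.inr i))
          simpa [wt] using this)
    have h3 := (isWeightedHomogeneous_C (wt n) ((c : ℤ) : ZMod 4)).mul h2
    simpa using h3
  have h4 := h1.mul (Gam_wt m v)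
  unfold top
  refine h4.coeff_eq_zero _ ?_
  rw [weight_ones]
  omega

theorem two_top_Phi_Gam (g : RR n) (m : ℕ) (hm : m ≠ n) (v : ℕ → Fin n → ℤ) :
    2 * top (Phi n g * Gam m v) = 0 := by
  induction g using MvPolynomial.induction_on' with
  | monomial d c =>
    by_cases hd : ∀ jk, d (Sum.inl jk) = 0
    · rw [label_case d c hd m hm v, mul_zero]
    · push Not at hd
      obtain ⟨jk, hjk⟩ := hd
      have e : monomial d c = monomial (d - Finsupp.single (Sum.inl jk) 1) c *
          X (Sum.inl jk) := by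
        rw [X, monomial_mul, mul_one]
        have hd' : d = d - Finsupp.single (Sum.inl jk) 1 + Finsupp.single (Sum.inl jk) 1 := by
          refine (tsub_add_cancel_of_le ?_).symm
          rw [Finsupp.single_le_iff]
          omega
        exact congrArg (fun d' => monomial d' c) hd'
      rw [e]
      exact edge_case _ m v jk
  | add p q hp hq =>
    rw [map_add, add_mul, top_add, mul_add, hp, hq, add_zero]

end Pool.Agent.MP3fd305
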