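import Mathlib

/-!
Laws, varieties of groups and the product varieties of abelian-by-nilpotent groups.
-/

namespace Pool.Agent.MP3fd305

/-- The word `w` in the free group of countable rank is a law of the group `G`: every
substitution of elements of `G` for the variables gives `1`. -/
def IsLaw (w : FreeGroup ℕ) (G : Type*) [Group G] : Prop :=
  ∀ f : ℕ → G, FreeGroup.lift f w = 1

/-- `G` belongs to the variety defined by the set of words `W`. -/
def InVariety (W : Set (FreeGroup ℕ)) (G : Type*) [Group G] : Prop :=
  ∀ w ∈ W, IsLaw w G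

/-- `G` belongs to the product variety `𝔄 𝔑_c`: some abelian normal subgroup `K` has a
nilpotent quotient `G ⧸ K` of class at most `c`. -/
def InAN (c : ℕ) (G : Type*) [Group G] : Prop :=
  ∃ K : Subgroup G, ∃ _ : K.Normal, (∀ x ∈ K, ∀ y ∈ K, x * y = y * x) ∧
    Group.IsNilpotent (G ⧸ K) ∧ Group.nilpotencyClass (G ⧸ K) ≤ c

end Pool.Agent.MP3fd305
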