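import Mathlib

/-!
The groups used for the non-finitely-based variety: a class two group `Hei B`, the wreath-type
group `Wr H L` of triples `(f, a, h)`, and polynomial functions on a group.
-/

namespace Pool.Agent.MP3fd305

open Finset
open scoped commutatorElement

/-! ### iterated commutators -/

/-- `iterComm g u k = [...[[g, u 0], u 1], ..., u (k-1)]` -/
def iterComm {G : Type*} [Group G] (g : G) (u : ℕ → G) : ℕ → G
  | 0 => g
  | k + 1 => ⁅iterComm g u k, u k⁆

theorem map_iterComm {G G' : Type*} [Group G] [Group G'] (φ : G →* G') (g : G) (u : ℕ → G)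
    (k : ℕ) : φ (iterComm g u k) = iterComm (φ g) (fun i => φ (u i)) k := by
  induction k with
  | zero => rfl
  | succ k ih => rw [iterComm, iterComm, map_commutatorElement, ih]

theorem iterComm_mem {G : Type*} [Group G] {S : Subgroup G} {g : G} (hg : g ∈ S) {u : ℕ → G}
    (hu : ∀ i, u i ∈ S) (k : ℕ) : iterComm g u k ∈ S := by
  induction k with
  | zero => exact hg
  | succ k ih =>
    rw [iterComm, commutatorElement_def]
    exact S.mul_mem (S.mul_mem (S.mul_mem ih (hu k)) (S.inv_mem ih)) (S.inv_mem (hu k))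

/-! ### the class two group -/

/-- Underlying set of the group `H = (V × L with cocycle B) × ℤ × ℤ`. -/
@[ext]
structure Hei {V L : Type*} [AddCommGroup V] [CommRing L] (B : V →+ V →+ L) where
  v : V
  c : L
  s : ℤ
  t : ℤ

namespace Hei

variable {V L : Type*} [AddCommGroup V] [CommRing L] {B : V →+ V →+ L}

instance : Mul (Hei B) := ⟨fun x y => ⟨x.v + y.v, x.c + y.c + B x.v y.v, x.s + y.s, x.t + y.t⟩⟩
instance : One (Hei B) := ⟨⟨0, 0, 0, 0⟩⟩
instance : Inv (Hei B) := ⟨fun x => ⟨-x.v, -x.c + B x.v x.v, -x.s, -x.t⟩⟩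

@[simp] theorem mul_v (x y : Hei B) : (x * y).v = x.v + y.v := rfl
@[simp] theorem mul_c (x y : Hei B) : (x * y).c = x.c + y.c + B x.v y.v := rfl
@[simp] theorem mul_s (x y : Hei B) : (x * y).s = x.s + y.s := rfl
@[simp] theorem mul_t (x y : Hei B) : (x * y).t = x.t + y.t := rfl
@[simp] theorem one_v : (1 : Hei B).v = 0 := rfl
@[simp] theorem one_c : (1 : Hei B).c = 0 := rfl
@[simp] theorem one_s : (1 : Hei B).s = 0 := rfl
@[simp] theorem one_t : (1 : Hei B).t = 0 := rfl
@[simp] theorem inv_v (x : Hei B) : (x⁻¹).v = -x.v := rfl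
@[simp] theorem inv_c (x : Hei B) : (x⁻¹).c = -x.c + B x.v x.v := rfl
@[simp] theorem inv_s (x : Hei B) : (x⁻¹).s = -x.s := rfl
@[simp] theorem inv_t (x : Hei B) : (x⁻¹).t = -x.t := rfl

instance : Group (Hei B) :=
  Group.ofLeftAxioms
    (fun x y z => by ext <;> simp [add_assoc]; ring)
    (fun x => by ext <;> simp)
    (fun x => by ext <;> simp)

/-- the central element with coordinate `c` -/
def zc (B : V →+ V →+ L) (c : L) : Hei B := ⟨0, c, 0, 0⟩

@[simp] theorem zc_v (c : L) : (zc B c).v = 0 := rfl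
@[simp] theorem zc_c (c : L) : (zc B c).c = c := rfl
@[simp] theorem zc_s (c : L) : (zc B c).s = 0 := rfl
@[simp] theorem zc_t (c : L) : (zc B c).t = 0 := rfl

theorem comm_eq (x y : Hei B) : ⁅x, y⁆ = zc B (B x.v y.v - B y.v x.v) := by
  rw [commutatorElement_def]
  ext <;> simp
  ring

theorem comm3 (x y z : Hei B) : ⁅⁅x, y⁆, z⁆ = 1 := by
  rw [comm_eq x y, comm_eq]
  ext <;> simp

theorem mul_zc_comm (x : Hei B) (c : L) : x * zc B c = zc B c * x := by
  ext <;> simp [add_comm]

end Hei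

/-! ### wreath type group -/

/-- Triples `(f, a, h)`, acting on functions `φ : H → L` by
`x ↦ f x + a x * φ (x * h)`. -/
@[ext]
structure Wr (H L : Type*) [Group H] [CommRing L] where
  f : H → L
  a : H → Lˣ
  h : H

namespace Wr

variable {H L : Type*} [Group H] [CommRing L]

instance : Mul (Wr H L) :=
  ⟨fun g k => ⟨fun x => g.f x + g.a x * k.f (x * g.h), fun x => g.a x * k.a (x * g.h), g.h * k.h⟩⟩
instance : One (Wr H L) := ⟨⟨0, 1, 1⟩⟩
instance : Inv (Wr H L) :=
  ⟨fun g => ⟨fun x => -(((g.a (x * g.h⁻¹))⁻¹ : Lˣ) * g.f (x * g.h⁻¹)),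
    fun x => (g.a (x * g.h⁻¹))⁻¹, g.h⁻¹⟩⟩

@[simp] theorem mul_f (g k : Wr H L) (x : H) :
    (g * k).f x = g.f x + g.a x * k.f (x * g.h) := rfl
@[simp] theorem mul_a (g k : Wr H L) (x : H) : (g * k).a x = g.a x * k.a (x * g.h) := rfl
@[simp] theorem mul_h (g k : Wr H L) : (g * k).h = g.h * k.h := rfl
@[simp] theorem one_f (x : H) : (1 : Wr H L).f x = 0 := rfl
@[simp] theorem one_a (x : H) : (1 : Wr H L).a x = 1 := rfl
@[simp] theorem one_h : (1 : Wr H L).h = 1 := rfl
@[simp] theorem inv_f (g : Wr H L) (x : H) :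
    (g⁻¹).f x = -(((g.a (x * g.h⁻¹))⁻¹ : Lˣ) * g.f (x * g.h⁻¹)) := rfl
@[simp] theorem inv_a (g : Wr H L) (x : H) : (g⁻¹).a x = (g.a (x * g.h⁻¹))⁻¹ := rfl
@[simp] theorem inv_h (g : Wr H L) : (g⁻¹).h = g.h⁻¹ := rfl

theorem ext' {g k : Wr H L} (hf : ∀ x, g.f x = k.f x) (ha : ∀ x, g.a x = k.a x)
    (hh : g.h = k.h) : g = k := Wr.ext (funext hf) (funext ha) hh

instance : Group (Wr H L) :=
  Group.ofLeftAxioms
    (fun x y z => ext' (fun u => by simp [mul_add, mul_assoc, add_assoc])
      (fun u => by simp [mul_assoc]) (by simp [mul_assoc]))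
    (fun x => ext' (fun u => by simp) (fun u => by simp) (by simp))
    (fun x => ext' (fun u => by simp) (fun u => by simp) (by simp))

theorem comm_h (g k : Wr H L) : (⁅g, k⁆).h = ⁅g.h, k.h⁆ := by
  simp [commutatorElement_def]

theorem comm_a {g : Wr H L} (hg : g.h = 1) (k : Wr H L) (x : H) :
    (⁅g, k⁆).a x = g.a x * (g.a (x * k.h))⁻¹ := by
  simp only [commutatorElement_def, mul_a, mul_h, inv_a, inv_h, hg, mul_one, one_mul, inv_one]
  rw [mul_assoc x, mul_inv_cancel, mul_one]
  rw [mul_comm (g.a x) (k.a x), mul_assoc (k.a x), mul_comm (k.a x), mul_inv_cancel_right]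

theorem comm_h_one {g : Wr H L} (hg : g.h = 1) (k : Wr H L) : (⁅g, k⁆).h = 1 := by
  rw [comm_h, hg, commutatorElement_one_left]

theorem comm_f {g : Wr H L} (hg : g.h = 1) (ha : ∀ x, g.a x = 1) (k : Wr H L) (x : H) :
    (⁅g, k⁆).f x = g.f x - k.a x * g.f (x * k.h) := by
  simp only [commutatorElement_def, mul_f, mul_a, mul_h, inv_f, inv_a, inv_h, hg, mul_one,
    one_mul, inv_one, ha, Units.val_one]
  rw [mul_assoc x, mul_inv_cancel, mul_one]
  have : (k.a x : L) * ((k.a x)⁻¹ : Lˣ) = 1 := by simp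
  linear_combination (-k.f x) * this

/-- the `a`-part of a commutator whose second entry has trivial `h`-part -/
theorem comm_a' (k : Wr H L) {g : Wr H L} (hg : g.h = 1) (x : H) :
    (⁅k, g⁆).a x = g.a (x * k.h) * (g.a x)⁻¹ := by
  have h1 : ⁅k, g⁆ = ⁅g, k⁆⁻¹ := (commutatorElement_inv g k).symm
  rw [h1, inv_a, comm_h_one hg, inv_one, mul_one, comm_a hg, mul_inv_rev, inv_inv]

theorem comm_h_one' (k : Wr H L) {g : Wr H L} (hg : g.h = 1) : (⁅k, g⁆).h = 1 := by
  rw [comm_h, hg, commutatorElement_one_right]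

/-- Iterated commutators of an element `(f, 1, 1)` with elements `(*, a_i, 1)`. -/
theorem iter_u {g : Wr H L} (hg : g.h = 1) (ha : ∀ x, g.a x = 1) (u : ℕ → Wr H L)
    (hu : ∀ i, (u i).h = 1) (k : ℕ) :
    (iterComm g u k).h = 1 ∧ (∀ x, (iterComm g u k).a x = 1) ∧
    ∀ x, (iterComm g u k).f x = (∏ i ∈ range k, (1 - ((u i).a x : L))) * g.f x := by
  induction k with
  | zero => exact ⟨hg, ha, fun x => by simp [iterComm]⟩
  | succ k ih =>
    obtain ⟨h1, h2, h3⟩ := ih
    refine ⟨?_, ?_, ?_⟩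
    · rw [iterComm, comm_h_one h1]
    · intro x
      rw [iterComm, comm_a h1, h2, h2, inv_one, mul_one]
    · intro x
      rw [iterComm, comm_f h1 h2, hu, mul_one, h3, prod_range_succ]
      ring

end Wr

/-! ### polynomial functions -/

section PD

variable {H : Type*} [Group H]

/-- multiplicative polynomial functions: all `k`-fold differences are trivial -/
def PD {D : Type*} [CommGroup D] : ℕ → (H → D) → Prop
  | 0, φ => ∀ x, φ x = 1
  | k + 1, φ => ∀ h, PD k fun x => φ x * (φ (x * h))⁻¹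

theorem PD.one {D : Type*} [CommGroup D] (k : ℕ) : PD k (fun _ : H => (1 : D)) := by
  induction k with
  | zero => intro x; rfl
  | succ k ih => intro h; simpa using ih

theorem PD.mul {D : Type*} [CommGroup D] {k : ℕ} {φ ψ : H → D} (h1 : PD k φ) (h2 : PD k ψ) :
    PD k fun x => φ x * ψ x := by
  induction k generalizing φ ψ with
  | zero => intro x; simp [h1 x, h2 x]
  | succ k ih =>
    intro h
    have := ih (h1 h) (h2 h)
    convert this using 2 with x
    rw [mul_inv, mul_mul_mul_comm]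

theorem PD.inv {D : Type*} [CommGroup D] {k : ℕ} {φ : H → D} (h1 : PD k φ) :
    PD k fun x => (φ x)⁻¹ := by
  induction k generalizing φ with
  | zero => intro x; simp [h1 x]
  | succ k ih =>
    intro h
    have := ih (h1 h)
    convert this using 2 with x
    rw [mul_inv]

theorem PD.shift {D : Type*} [CommGroup D] {k : ℕ} {φ : H → D} (h1 : PD k φ) (y : H) :
    PD k fun x => φ (x * y) := by
  induction k generalizing φ with
  | zero => intro x; exact h1 _
  | succ k ih =>
    intro h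
    have := ih (h1 (y⁻¹ * h * y))
    convert this using 4 with x
    group

/-- additive polynomial functions: all `k`-fold differences vanish -/
def PDa {L : Type*} [CommRing L] : ℕ → (H → L) → Prop
  | 0, φ => ∀ x, φ x = 0
  | k + 1, φ => ∀ h, PDa k fun x => φ x - φ (x * h)

theorem PDa.zero {L : Type*} [CommRing L] (k : ℕ) : PDa k (fun _ : H => (0 : L)) := by
  induction k with
  | zero => intro x; rfl
  | succ k ih => intro h; simpa using ih

theorem PDa.add {L : Type*} [CommRing L] {k : ℕ} {φ ψ : H → L} (h1 : PDa k φ) (h2 : PDa k ψ) :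
    PDa k fun x => φ x + ψ x := by
  induction k generalizing φ ψ with
  | zero => intro x; simp [h1 x, h2 x]
  | succ k ih =>
    intro h
    have := ih (h1 h) (h2 h)
    convert this using 2 with x
    ring

theorem PDa.neg {L : Type*} [CommRing L] {k : ℕ} {φ : H → L} (h1 : PDa k φ) :
    PDa k fun x => -φ x := by
  induction k generalizing φ with
  | zero => intro x; simp [h1 x]
  | succ k ih =>
    intro h
    have := ih (h1 h)
    convert this using 2 with x
    ring

theorem PDa.succ {L : Type*} [CommRing L] {k : ℕ} {φ : H → L} (h1 : PDa k φ) :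
    PDa (k + 1) φ := by
  induction k generalizing φ with
  | zero => intro h x; simp [h1 x, h1 (x * h)]
  | succ k ih => intro h; exact ih (h1 h)

theorem PDa.mul {L : Type*} [CommRing L] (N : ℕ) : ∀ (i j : ℕ), i + j = N → ∀ (φ ψ : H → L),
    PDa (i + 1) φ → PDa (j + 1) ψ → PDa (N + 1) fun x => φ x * ψ x := by
  induction N using Nat.strong_induction_on with
  | _ N ih =>
    intro i j hij φ ψ h1 h2 h
    -- three terms
    have t1 : PDa N fun x => (φ x - φ (x * h)) * ψ x := by
      rcases i with _ | i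
      · have : ∀ x, φ x - φ (x * h) = 0 := h1 h
        simpa [this] using PDa.zero (H := H) (L := L) N
      · obtain ⟨M, rfl⟩ : ∃ M, N = M + 1 := ⟨i + j, by omega⟩
        exact ih M (by omega) i j (by omega) _ _ (h1 h) h2
    have t2 : PDa N fun x => φ x * (ψ x - ψ (x * h)) := by
      rcases j with _ | j
      · have : ∀ x, ψ x - ψ (x * h) = 0 := h2 h
        simpa [this] using PDa.zero (H := H) (L := L) N
      · obtain ⟨M, rfl⟩ : ∃ M, N = M + 1 := ⟨i + j, by omega⟩
        exact ih M (by omega) i j (by omega) _ _ h1 (h2 h)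
    have t3 : PDa N fun x => (φ x - φ (x * h)) * (ψ x - ψ (x * h)) := by
      rcases i with _ | i
      · have : ∀ x, φ x - φ (x * h) = 0 := h1 h
        simpa [this] using PDa.zero (H := H) (L := L) N
      · rcases j with _ | j
        · have : ∀ x, ψ x - ψ (x * h) = 0 := h2 h
          simpa [this] using PDa.zero (H := H) (L := L) N
        · obtain ⟨M, rfl⟩ : ∃ M, N = M + 1 + 1 := ⟨i + j, by omega⟩
          exact (ih M (by omega) i j (by omega) _ _ (h1 h) (h2 h)).succ
    have t4 := (t1.add t2).add t3.neg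
    convert t4 using 2 with x
    ring

theorem PDa.comp {L D : Type*} [CommRing L] [CommGroup D] (E : L → D)
    (hE : ∀ a b, E (a - b) = E a * (E b)⁻¹) {k : ℕ} {φ : H → L} (h1 : PDa k φ) :
    PD k fun x => E (φ x) := by
  have h0 : E 0 = 1 := by
    have := hE 0 0
    rwa [sub_zero, mul_inv_cancel] at this
  induction k generalizing φ with
  | zero => intro x; simp [h1 x, h0]
  | succ k ih =>
    intro h
    have := ih (h1 h)
    convert this using 2 with x
    rw [hE]

end PD

/-! ### the subgroup -/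

section Adm

variable {V L : Type*} [AddCommGroup V] [CommRing L] (B : V →+ V →+ L)

/-- admissible functions `H → Lˣ`: polynomial of degree at most four, and a translation by the
central element `zc c` multiplies the value by an element of `1 + c L`. -/
def Adm (a : Hei B → Lˣ) : Prop :=
  PD 5 a ∧ ∀ x c, ∃ l : L, (a (x * Hei.zc B c) : L) = a x * (1 + c * l)

theorem Adm.one : Adm B (fun _ => 1) := ⟨PD.one 5, fun _ _ => ⟨0, by simp⟩⟩

theorem Adm.mul {a a' : Hei B → Lˣ} (h : Adm B a) (h' : Adm B a') :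
    Adm B (fun x => a x * a' x) := by
  refine ⟨h.1.mul h'.1, fun x c => ?_⟩
  obtain ⟨l, hl⟩ := h.2 x c
  obtain ⟨l', hl'⟩ := h'.2 x c
  refine ⟨l + l' + c * l * l', ?_⟩
  rw [Units.val_mul, hl, hl', Units.val_mul]
  ring

theorem Adm.inv {a : Hei B → Lˣ} (h : Adm B a) : Adm B (fun x => (a x)⁻¹) := by
  refine ⟨h.1.inv, fun x c => ?_⟩
  obtain ⟨l, hl⟩ := h.2 x c
  obtain ⟨u, hu⟩ : ∃ u : L, u = (((a (x * Hei.zc B c))⁻¹ : Lˣ) : L) := ⟨_, rfl⟩
  obtain ⟨w, hw⟩ : ∃ w : L, w = (((a x)⁻¹ : Lˣ) : L) := ⟨_, rfl⟩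
  have e1 : u * (a (x * Hei.zc B c) : L) = 1 := by rw [hu]; simp
  have e2 : w * (a x : L) = 1 := by rw [hw]; simp
  rw [hl] at e1
  refine ⟨-(l * (a x : L) * u), ?_⟩
  show (((a (x * Hei.zc B c))⁻¹ : Lˣ) : L) = (((a x)⁻¹ : Lˣ) : L) * _
  rw [← hu, ← hw]
  linear_combination w * e1 - u * e2

theorem Adm.shift {a : Hei B → Lˣ} (h : Adm B a) (y : Hei B) : Adm B (fun x => a (x * y)) := by
  refine ⟨h.1.shift y, fun x c => ?_⟩
  obtain ⟨l, hl⟩ := h.2 (x * y) c
  refine ⟨l, ?_⟩
  show (a (x * Hei.zc B c * y) : L) = _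
  rw [← hl, mul_assoc, mul_assoc, Hei.mul_zc_comm]

/-- the group `G` -/
def Gsub : Subgroup (Wr (Hei B) L) where
  carrier := {g | Adm B g.a}
  one_mem' := Adm.one B
  mul_mem' := by
    intro g k hg hk
    exact Adm.mul B hg (Adm.shift B hk g.h)
  inv_mem' := by
    intro g hg
    exact Adm.inv B (Adm.shift B hg g.h⁻¹)

theorem mem_Gsub {g : Wr (Hei B) L} : g ∈ Gsub B ↔ Adm B g.a := Iff.rfl

end Adm

end Pool.Agent.MP3fd305
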