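import Mathlib
import Pool.Agent.Lib.MP_3fd305_al.Grp

/-!
Evaluation of the words in the group `Gsub B`.
-/

namespace Pool.Agent.MP3fd305

open Finset
open scoped commutatorElement

/-- `[[x_i, x_{i+1}], [[p_i, q_i], r_i]]`, indices of `x` modulo `m` -/
def uval {G : Type*} [Group G] (m : ℕ) (x p q r : ℕ → G) (i : ℕ) : G :=
  ⁅⁅x i, x ((i + 1) % m)⁆, ⁅⁅p i, q i⁆, r i⁆⁆

/-- left-normed commutator of `a 0, ..., a 7` -/
def aval {G : Type*} [Group G] (a : ℕ → G) : G := iterComm (a 0) (fun i => a (i + 1)) 7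

/-- `[...[[α, u_0], u_1], ..., u_{m-1}]` with `α = [a_0, ..., a_7]` -/
def wval {G : Type*} [Group G] (m : ℕ) (a x p q r : ℕ → G) : G :=
  iterComm (aval a) (uval m x p q r) m

theorem map_uval {G G' : Type*} [Group G] [Group G'] (φ : G →* G') (m : ℕ) (x p q r : ℕ → G)
    (i : ℕ) : φ (uval m x p q r i) =
      uval m (fun i => φ (x i)) (fun i => φ (p i)) (fun i => φ (q i)) (fun i => φ (r i)) i := by
  simp only [uval, map_commutatorElement]

theorem map_aval {G G' : Type*} [Group G] [Group G'] (φ : G →* G') (a : ℕ → G) :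
    φ (aval a) = aval fun i => φ (a i) := by
  unfold aval
  rw [map_iterComm]

theorem map_wval {G G' : Type*} [Group G] [Group G'] (φ : G →* G') (m : ℕ)
    (a x p q r : ℕ → G) : φ (wval m a x p q r) =
      wval m (fun i => φ (a i)) (fun i => φ (x i)) (fun i => φ (p i)) (fun i => φ (q i))
        (fun i => φ (r i)) := by
  unfold wval
  rw [map_iterComm, map_aval]
  congr 1
  funext i
  exact map_uval φ m x p q r i

section

variable {V L : Type*} [AddCommGroup V] [CommRing L] {B : V →+ V →+ L}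

theorem comm_mem {G : Type*} [Group G] {S : Subgroup G} {g k : G} (hg : g ∈ S) (hk : k ∈ S) :
    ⁅g, k⁆ ∈ S := by
  rw [commutatorElement_def]
  exact S.mul_mem (S.mul_mem (S.mul_mem hg hk) (S.inv_mem hg)) (S.inv_mem hk)

theorem step_PD {g : Wr (Hei B) L} (hg : g.h = 1) {k : ℕ} (hk : PD (k + 1) g.a)
    (y : Wr (Hei B) L) : (⁅g, y⁆).h = 1 ∧ PD k (⁅g, y⁆).a := by
  refine ⟨Wr.comm_h_one hg y, ?_⟩
  have := hk y.h
  convert this using 1
  funext x
  exact Wr.comm_a hg y x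

theorem iter_desc (g : Wr (Hei B) L) (u : ℕ → Wr (Hei B) L) (hg : g ∈ Gsub B)
    (hu : ∀ i, u i ∈ Gsub B) (k : ℕ) : (iterComm g u (k + 2)).h = 1 ∧
      ∀ j, j + k = 5 → PD j (iterComm g u (k + 2)).a := by
  induction k with
  | zero =>
    refine ⟨?_, ?_⟩
    · show (⁅⁅g, u 0⁆, u 1⁆).h = 1
      rw [Wr.comm_h, Wr.comm_h, Hei.comm3]
    · intro j hj
      obtain rfl : j = 5 := by omega
      have : iterComm g u (0 + 2) ∈ Gsub B := iterComm_mem hg hu _
      exact this.1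
  | succ k ih =>
    obtain ⟨h1, h2⟩ := ih
    have e : iterComm g u (k + 1 + 2) = ⁅iterComm g u (k + 2), u (k + 2)⁆ := rfl
    refine ⟨?_, ?_⟩
    · rw [e]; exact Wr.comm_h_one h1 _
    · intro j hj
      rw [e]
      exact (step_PD h1 (h2 (j + 1) (by omega)) _).2

/-- values of the left-normed commutator of weight eight -/
theorem aval_trivial (a : ℕ → Wr (Hei B) L) (ha : ∀ i, a i ∈ Gsub B) :
    (aval a).h = 1 ∧ ∀ x, (aval a).a x = 1 := by
  obtain ⟨h1, h2⟩ := iter_desc (a 0) (fun i => a (i + 1)) (ha 0) (fun i => ha (i + 1)) 5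
  exact ⟨h1, h2 0 rfl⟩

/-- the commuting law `[[a_0,...,a_7],[b_0,...,b_7]] = 1` -/
theorem d_law (a b : ℕ → Wr (Hei B) L) (ha : ∀ i, a i ∈ Gsub B) (hb : ∀ i, b i ∈ Gsub B) :
    ⁅aval a, aval b⁆ = 1 := by
  obtain ⟨h1, h2⟩ := aval_trivial a ha
  obtain ⟨h3, h4⟩ := aval_trivial b hb
  refine Wr.ext' (fun x => ?_) (fun x => ?_) ?_
  · rw [Wr.comm_f h1 h2, h4, h3]; simp
  · rw [Wr.comm_a h1, h2, h2]; simp
  · rw [Wr.comm_h_one h1]; rfl

theorem uval_h (m : ℕ) (x p q r : ℕ → Wr (Hei B) L) (i : ℕ) : (uval m x p q r i).h = 1 := by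
  unfold uval
  apply Wr.comm_h_one'
  rw [Wr.comm_h, Wr.comm_h, Hei.comm3]

theorem uval_a (m : ℕ) (x p q r : ℕ → Wr (Hei B) L) (i : ℕ) (y : Hei B) :
    (uval m x p q r i).a y = (⁅⁅p i, q i⁆, r i⁆).a (y * Hei.zc B
      (B (x i).h.v (x ((i + 1) % m)).h.v - B (x ((i + 1) % m)).h.v (x i).h.v)) *
      ((⁅⁅p i, q i⁆, r i⁆).a y)⁻¹ := by
  unfold uval
  rw [Wr.comm_a' _ (by rw [Wr.comm_h, Wr.comm_h, Hei.comm3]), Wr.comm_h, Hei.comm_eq]

theorem w_law (m : ℕ) (hB : ∀ v : ℕ → V, ∏ i ∈ range m,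
      (B (v i) (v ((i + 1) % m)) - B (v ((i + 1) % m)) (v i)) = 0)
    (a x p q r : ℕ → Wr (Hei B) L) (ha : ∀ i, a i ∈ Gsub B) (hp : ∀ i, p i ∈ Gsub B)
    (hq : ∀ i, q i ∈ Gsub B) (hr : ∀ i, r i ∈ Gsub B) : wval m a x p q r = 1 := by
  unfold wval
  obtain ⟨h1, h2⟩ := aval_trivial a ha
  obtain ⟨k1, k2, k3⟩ := Wr.iter_u h1 h2 (uval m x p q r) (uval_h m x p q r) m
  refine Wr.ext' (fun y => ?_) (fun y => ?_) ?_
  · rw [k3]
    have : ∀ i, ∃ l : L, 1 - ((uval m x p q r i).a y : L) =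
        (B (x i).h.v (x ((i + 1) % m)).h.v - B (x ((i + 1) % m)).h.v (x i).h.v) * l := by
      intro i
      have hmem : ⁅⁅p i, q i⁆, r i⁆ ∈ Gsub B := comm_mem (comm_mem (hp i) (hq i)) (hr i)
      obtain ⟨l, hl⟩ := hmem.2 y
        (B (x i).h.v (x ((i + 1) % m)).h.v - B (x ((i + 1) % m)).h.v (x i).h.v)
      refine ⟨-l, ?_⟩
      rw [uval_a, Units.val_mul, hl]
      have : ((⁅⁅p i, q i⁆, r i⁆).a y : L) * ((((⁅⁅p i, q i⁆, r i⁆).a y)⁻¹ : Lˣ) : L) = 1 := by
        simp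
      linear_combination (-(1 + (B (x i).h.v (x ((i + 1) % m)).h.v -
        B (x ((i + 1) % m)).h.v (x i).h.v) * l)) * this
    choose l hl using this
    rw [prod_congr rfl fun i _ => hl i, prod_mul_distrib, hB fun i => (x i).h.v]
    simp
  · rw [k2]; rfl
  · rw [k1]; rfl

end

/-! ### the special elements -/

section special

variable {V L : Type*} [AddCommGroup V] [CommRing L] {B : V →+ V →+ L}

/-- the unit `1 + t y` for `t ^ 2 = 0` -/
def E (t : L) (ht : t ^ 2 = 0) (y : L) : Lˣ :=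
  ⟨1 + t * y, 1 - t * y, by linear_combination (-(y ^ 2)) * ht,
    by linear_combination (-(y ^ 2)) * ht⟩

theorem E_val (t : L) (ht : t ^ 2 = 0) (y : L) : (E t ht y : L) = 1 + t * y := rfl

theorem E_add (t : L) (ht : t ^ 2 = 0) (y z : L) : E t ht (y + z) = E t ht y * E t ht z := by
  ext
  rw [Units.val_mul, E_val, E_val, E_val]
  linear_combination (-(y * z)) * ht

theorem E_zero (t : L) (ht : t ^ 2 = 0) : E t ht 0 = 1 := by
  ext; rw [E_val]; simp

theorem E_sub (t : L) (ht : t ^ 2 = 0) (y z : L) :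
    E t ht (y - z) = E t ht y * (E t ht z)⁻¹ := by
  rw [eq_mul_inv_iff_mul_eq, ← E_add, sub_add_cancel]

theorem PDa_const (l : L) : PDa 1 fun _ : Hei B => l := by
  intro h x; simp

theorem PDa_s : PDa 2 fun x : Hei B => (x.s : L) := by
  intro h
  have := PDa_const (B := B) (-(h.s : L))
  convert this using 2 with x
  simp

theorem PDa_t : PDa 2 fun x : Hei B => (x.t : L) := by
  intro h
  have := PDa_const (B := B) (-(h.t : L))
  convert this using 2 with x
  simp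

theorem PDa_lin (v : V) : PDa 2 fun x : Hei B => B x.v v := by
  intro h
  have := PDa_const (B := B) (-(B h.v v))
  convert this using 2 with x
  simp

theorem PDa_c : PDa 3 fun x : Hei B => x.c := by
  intro h
  have := ((PDa_const (B := B) (h.c)).succ.add (PDa_lin (B := B) h.v)).neg
  convert this using 2 with x
  simp
  ring

theorem PDa_cst : PDa 5 fun x : Hei B => x.c * (x.s : L) * (x.t : L) :=
  PDa.mul 4 3 1 rfl _ _ (PDa.mul 3 2 1 rfl _ _ PDa_c PDa_s) PDa_t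

/-- the function `x ↦ 1 + t c s t'` -/
def Q (B : V →+ V →+ L) (t : L) (ht : t ^ 2 = 0) : Hei B → Lˣ :=
  fun x => E t ht (x.c * (x.s : L) * (x.t : L))

theorem Q_adm (t : L) (ht : t ^ 2 = 0) : Adm B (Q B t ht) := by
  refine ⟨PDa.comp (E t ht) (E_sub t ht) PDa_cst, fun x c => ⟨t * ((x.s : L) * (x.t : L)), ?_⟩⟩
  unfold Q
  have : (x * Hei.zc B c).c * ((x * Hei.zc B c).s : L) * ((x * Hei.zc B c).t : L) =
      x.c * (x.s : L) * (x.t : L) + c * ((x.s : L) * (x.t : L)) := by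
    simp
    ring
  rw [this, E_add, Units.val_mul, E_val _ _ (c * _)]
  ring

/-- the element `(φ, 1, 1)` -/
def elf (φ : Hei B → L) : Wr (Hei B) L := ⟨φ, fun _ => 1, 1⟩
/-- the element `(0, a, 1)` -/
def ela (a : Hei B → Lˣ) : Wr (Hei B) L := ⟨fun _ => 0, a, 1⟩
/-- the element `(0, 1, h)` -/
def elh (h : Hei B) : Wr (Hei B) L := ⟨fun _ => 0, fun _ => 1, h⟩

theorem elf_mem (φ : Hei B → L) : elf φ ∈ Gsub B := Adm.one B
theorem ela_mem {a : Hei B → Lˣ} (h : Adm B a) : ela a ∈ Gsub B := h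
theorem elh_mem (h : Hei B) : elh h ∈ Gsub B := Adm.one B

/-- translation in the `s` coordinate -/
def sS (B : V →+ V →+ L) : Hei B := ⟨0, 0, 1, 0⟩
/-- translation in the `t` coordinate -/
def tT (B : V →+ V →+ L) : Hei B := ⟨0, 0, 0, 1⟩

theorem tau_a (t : L) (ht : t ^ 2 = 0) (x : Hei B) :
    (⁅⁅ela (Q B t ht), elh (sS B)⁆, elh (tT B)⁆).a x = E t ht x.c := by
  rw [Wr.comm_a (Wr.comm_h_one rfl _), Wr.comm_a rfl, Wr.comm_a rfl]
  show Q B t ht x * (Q B t ht (x * sS B))⁻¹ *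
    (Q B t ht (x * tT B) * (Q B t ht (x * tT B * sS B))⁻¹)⁻¹ = _
  unfold Q
  rw [← E_sub, ← E_sub, ← E_sub]
  congr 1
  simp [sS, tT]
  ring

open Classical in
/-- the indicator function of the identity -/
noncomputable def ind (B : V →+ V →+ L) : Hei B → L := fun x => if x = 1 then 1 else 0

theorem ind_iter (k : ℕ) :
    (iterComm (elf (ind B)) (fun _ => elh (sS B)) k).h = 1 ∧
    (∀ x, (iterComm (elf (ind B)) (fun _ => elh (sS B)) k).a x = 1) ∧
    (∀ j : ℤ, 1 ≤ j → (iterComm (elf (ind B)) (fun _ => elh (sS B)) k).f ⟨0, 0, j, 0⟩ = 0) ∧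
    (iterComm (elf (ind B)) (fun _ => elh (sS B)) k).f 1 = 1 := by
  induction k with
  | zero =>
    refine ⟨rfl, fun _ => rfl, fun j hj => ?_, ?_⟩
    · show ind B _ = 0
      unfold ind
      rw [if_neg]
      intro h
      have := congrArg Hei.s h
      simp at this
      omega
    · show ind B _ = 1
      unfold ind
      rw [if_pos rfl]
  | succ k ih =>
    obtain ⟨h1, h2, h3, h4⟩ := ih
    refine ⟨?_, ?_, ?_, ?_⟩
    · rw [iterComm, Wr.comm_h_one h1]
    · intro x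
      rw [iterComm, Wr.comm_a h1, h2, h2]; simp
    · intro j hj
      rw [iterComm, Wr.comm_f h1 h2, h3 j hj]
      have e : (⟨0, 0, j, 0⟩ : Hei B) * (elh (sS B)).h = ⟨0, 0, j + 1, 0⟩ := by
        ext <;> simp [elh, sS]
      rw [e, h3 (j + 1) (by omega)]
      simp
    · rw [iterComm, Wr.comm_f h1 h2, h4]
      have e : (1 : Hei B) * (elh (sS B)).h = ⟨0, 0, 1, 0⟩ := by
        ext <;> simp [elh, sS]
      rw [e, h3 1 le_rfl]
      simp

/-- the word `w_n` does not vanish at the special elements -/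
theorem w_not (n : ℕ) (t : ℕ → L) (ht : ∀ i, t i ^ 2 = 0) (e : ℕ → V)
    (hne : ∏ i ∈ range n, (t i * (B (e i) (e ((i + 1) % n)) - B (e ((i + 1) % n)) (e i))) ≠ 0) :
    wval n (fun i => if i = 0 then elf (ind B) else elh (sS B))
      (fun i => elh ⟨e i, 0, 0, 0⟩) (fun i => ela (Q B (t i) (ht i))) (fun _ => elh (sS B))
      (fun _ => elh (tT B)) ≠ 1 := by
  intro hw
  have ha : aval (fun i => if i = 0 then elf (ind B) else elh (sS B)) =
      iterComm (elf (ind B)) (fun _ => elh (sS B)) 7 := by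
    unfold aval
    simp
  unfold wval at hw
  rw [ha] at hw
  obtain ⟨h1, h2, -, h4⟩ := ind_iter (B := B) 7
  obtain ⟨k1, k2, k3⟩ := Wr.iter_u h1 h2 (uval n (fun i => elh ⟨e i, 0, 0, 0⟩)
    (fun i => ela (Q B (t i) (ht i))) (fun _ => elh (sS B)) (fun _ => elh (tT B)))
    (uval_h n _ _ _ _) n
  have k4 := k3 1
  rw [hw, h4, mul_one] at k4
  apply hne
  have k5 : ∀ i, 1 - ((uval n (fun i => elh ⟨e i, 0, 0, 0⟩)
      (fun i => ela (Q B (t i) (ht i))) (fun _ => elh (sS B)) (fun _ => elh (tT B)) i).a 1 : L) =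
      (-1) * (t i * (B (e i) (e ((i + 1) % n)) - B (e ((i + 1) % n)) (e i))) := by
    intro i
    rw [uval_a, tau_a, tau_a]
    simp only [Hei.one_c, E_zero, inv_one, mul_one, one_mul, Hei.zc_c, E_val]
    show 1 - (1 + t i * (B (e i) (e ((i + 1) % n)) - B (e ((i + 1) % n)) (e i))) = _
    ring
  rw [prod_congr rfl fun i _ => k5 i, prod_mul_distrib] at k4
  have k6 : (0 : L) = (∏ _i ∈ range n, (-1 : L)) *
      ∏ i ∈ range n, (t i * (B (e i) (e ((i + 1) % n)) - B (e ((i + 1) % n)) (e i))) := k4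
  rw [prod_const, card_range] at k6
  have k7 : ((-1 : L) ^ n) * ((-1) ^ n * ∏ i ∈ range n,
      (t i * (B (e i) (e ((i + 1) % n)) - B (e ((i + 1) % n)) (e i)))) = 0 := by
    rw [← k6, mul_zero]
  rw [← mul_assoc, ← mul_pow] at k7
  simpa using k7

end special

end Pool.Agent.MP3fd305
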