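import Mathlib
import Pool.Agent.Lib.MP_3fd305_al.Algebra

/-!
The quotient ring and the biadditive map.
-/

namespace Pool.Agent.MP3fd305

open MvPolynomial Finset

variable {n : ℕ}

/-- the two-variable map with `B(e_j, e_k) = X_{jk}` for `j < k` and `0` otherwise -/
noncomputable def bfun (n : ℕ) (v w : Fin n → ℤ) : RR n :=
  ∑ j, ∑ k, if j < k then C (v j * w k) * X (Sum.inl (j, k)) else 0

theorem bfun_add_right (v w w' : Fin n → ℤ) : bfun n v (w + w') = bfun n v w + bfun n v w' := by
  unfold bfun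
  rw [← sum_add_distrib]
  refine sum_congr rfl fun j _ => ?_
  rw [← sum_add_distrib]
  refine sum_congr rfl fun k _ => ?_
  split_ifs
  · rw [Pi.add_apply, mul_add, C_add, add_mul]
  · rw [add_zero]

theorem bfun_add_left (v v' w : Fin n → ℤ) : bfun n (v + v') w = bfun n v w + bfun n v' w := by
  unfold bfun
  rw [← sum_add_distrib]
  refine sum_congr rfl fun j _ => ?_
  rw [← sum_add_distrib]
  refine sum_congr rfl fun k _ => ?_
  split_ifs
  · rw [Pi.add_apply, add_mul, C_add, add_mul]
  · rw [add_zero]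

/-- the biadditive map with `B(e_j, e_k) = X_{jk}` for `j < k` and `0` otherwise -/
noncomputable def bform (n : ℕ) : (Fin n → ℤ) →+ (Fin n → ℤ) →+ RR n :=
  AddMonoidHom.mk' (fun v => AddMonoidHom.mk' (bfun n v) (bfun_add_right v))
    (fun v v' => AddMonoidHom.ext fun w => bfun_add_left v v' w)

theorem bform_apply (v w : Fin n → ℤ) : bform n v w =
    ∑ j, ∑ k, if j < k then C (v j * w k) * X (Sum.inl (j, k)) else 0 := rfl

theorem sum_lt_split {R : Type*} [CommRing R] (g : Fin n → Fin n → R) (h : ∀ j, g j j = 0) :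
    ∑ j, ∑ k, g j k = ∑ j, ∑ k, if j < k then g j k + g k j else 0 := by
  have h1 : ∀ j k, g j k = (if j < k then g j k else 0) + (if k < j then g j k else 0) := by
    intro j k
    rcases lt_trichotomy j k with h' | h' | h'
    · rw [if_pos h', if_neg (not_lt.2 h'.le), add_zero]
    · subst h'; simp [h]
    · rw [if_neg (not_lt.2 h'.le), if_pos h', zero_add]
  have h2 : ∑ j, ∑ k, (if k < j then g j k else 0) = ∑ j, ∑ k, (if j < k then g k j else 0) :=
    sum_comm
  calc ∑ j, ∑ k, g j k
      = ∑ j, ∑ k, ((if j < k then g j k else 0) + (if k < j then g j k else 0)) :=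
        sum_congr rfl fun j _ => sum_congr rfl fun k _ => h1 j k
    _ = ∑ j, ∑ k, (if j < k then g j k else 0) + ∑ j, ∑ k, (if k < j then g j k else 0) := by
        simp only [sum_add_distrib]
    _ = ∑ j, ∑ k, (if j < k then g j k else 0) + ∑ j, ∑ k, (if j < k then g k j else 0) := by
        rw [h2]
    _ = ∑ j, ∑ k, if j < k then g j k + g k j else 0 := by
        simp only [← sum_add_distrib]
        refine sum_congr rfl fun j _ => sum_congr rfl fun k _ => ?_
        split_ifs <;> simp

theorem Phi_wform (v w : Fin n → ℤ) :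
    Phi n (bform n v w - bform n w v) = al v * be w - be v * al w := by
  have hR : al v * be w - be v * al w =
      ∑ j, ∑ k, (C ((v j * w k - w j * v k : ℤ) : ZMod 4) * (X (j, 0) * X (k, 1)) : CR n) := by
    rw [mul_comm (be v), al, be, al, be, sum_mul_sum, sum_mul_sum, ← sum_sub_distrib]
    refine sum_congr rfl fun j _ => ?_
    rw [← sum_sub_distrib]
    refine sum_congr rfl fun k _ => ?_
    push_cast
    rw [C_sub, C_mul, C_mul]
    ring
  rw [hR, sum_lt_split _ (by intro j; simp [mul_comm]), map_sub, bform_apply, bform_apply,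
    map_sum, map_sum, ← sum_sub_distrib]
  refine sum_congr rfl fun j _ => ?_
  rw [map_sum, map_sum, ← sum_sub_distrib]
  refine sum_congr rfl fun k _ => ?_
  split_ifs with h
  · rw [map_mul, Phi_inl, if_pos h]
    have hC : ∀ z : ℤ, Phi n (C z) = C (z : ZMod 4) := by
      intro z; simp [Phi]
    rw [hC, map_mul, hC, Phi_inl, if_pos h]
    push_cast
    rw [C_sub, C_sub, C_mul, C_mul, C_mul, C_mul]
    ring
  · simp

/-- cyclic product in the source ring -/
noncomputable def zprod (n m : ℕ) (v : ℕ → Fin n → ℤ) : RR n :=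
  ∏ i ∈ range m, (bform n (v i) (v ((i + 1) % m)) - bform n (v ((i + 1) % m)) (v i))

theorem Phi_zprod (m : ℕ) (v : ℕ → Fin n → ℤ) :
    Phi n (zprod n m v) = ∏ i ∈ range m,
      (al (v i) * be (v ((i + 1) % m)) - be (v i) * al (v ((i + 1) % m))) := by
  unfold zprod
  rw [map_prod]
  exact prod_congr rfl fun i _ => Phi_wform _ _

theorem top_zprod (g : RR n) (m : ℕ) (hm : 1 ≤ m) (hmn : m ≠ n) (v : ℕ → Fin n → ℤ) :
    top (Phi n g * Phi n (zprod n m v)) = 0 := by
  rw [Phi_zprod, top_cyc _ _ _ hm]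
  rcases Nat.even_or_odd m with h | h
  · rw [h.neg_one_pow]
    have e : Phi n g * ((1 + 1) * ∏ i ∈ range m, al (v i) * be (v i)) =
        2 * (Phi n g * Gam m v) := by
      rw [Gam]; ring
    rw [e, top_two_mul, two_top_Phi_Gam g m hmn v]
  · rw [h.neg_one_pow]
    simp [top]

/-- the ideal generated by the cyclic products of length `m`, `3 ≤ m`, `m ≠ n`, and the squares
of the labels -/
noncomputable def Idl (n : ℕ) : Ideal (RR n) :=
  Ideal.span ({r | ∃ m v, 3 ≤ m ∧ m ≠ n ∧ r = zprod n m v} ∪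
    {r | ∃ i : Fin n, r = X (Sum.inr i) ^ 2})

theorem top_of_mem_Idl {r : RR n} (hr : r ∈ Idl n) (g : RR n) :
    top (Phi n g * Phi n r) = 0 := by
  unfold Idl at hr
  induction hr using Submodule.span_induction generalizing g with
  | mem x h =>
    rcases h with ⟨m, v, h3, hmn, rfl⟩ | ⟨i, rfl⟩
    · exact top_zprod g m (by omega) hmn v
    · rw [map_pow, Phi_inr]; exact top_mul_sq _ _
  | zero => simp [top]
  | add x y _ _ hx hy => rw [map_add, mul_add, top_add, hx, hy, add_zero]
  | smul a x _ hx =>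
    rw [smul_eq_mul, map_mul, ← mul_assoc, ← map_mul]
    exact hx _

/-- labels -/
noncomputable def lab (n : ℕ) (i : ℕ) : RR n := if h : i < n then X (Sum.inr ⟨i, h⟩) else 0

/-- standard basis vectors -/
def bas (n : ℕ) (i : ℕ) : Fin n → ℤ := fun j => if j.1 = i then 1 else 0

theorem al_bas (i : Fin n) : al (bas n i) = (X (i, 0) : CR n) := by
  unfold al bas
  rw [Finset.sum_eq_single i]
  · simp
  · intro j _ hj
    have : j.1 ≠ i.1 := fun h => hj (Fin.ext h)
    simp [this]
  · simp

theorem be_bas (i : Fin n) : be (bas n i) = (X (i, 1) : CR n) := by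
  unfold be bas
  rw [Finset.sum_eq_single i]
  · simp
  · intro j _ hj
    have : j.1 ≠ i.1 := fun h => hj (Fin.ext h)
    simp [this]
  · simp

theorem top_full : top (∏ i ∈ range n, (Phi n (lab n i) * (al (bas n i) * be (bas n i)))) = 1 := by
  have h1 : ∏ i ∈ range n, (Phi n (lab n i) * (al (bas n i) * be (bas n i))) =
      ∏ s : Fin n × Fin 3, (X s : CR n) := by
    rw [Finset.prod_range, Fintype.prod_prod_type]
    refine prod_congr rfl fun i _ => ?_
    rw [al_bas, be_bas, Fin.prod_univ_three, lab, dif_pos i.2, Phi_inr]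
    ring
  have h2 : ∏ s : Fin n × Fin 3, (X s : CR n) = monomial (ones n) 1 := by
    rw [monomial_eq, C_1, one_mul, Finsupp.prod_fintype _ _ (by simp)]
    simp
  rw [h1, h2, top, coeff_monomial, if_pos rfl]

theorem not_mem_Idl (hn : Even n) (h0 : 0 < n) :
    (∏ i ∈ range n, (lab n i *
      (bform n (bas n i) (bas n ((i + 1) % n)) - bform n (bas n ((i + 1) % n)) (bas n i))))
      ∉ Idl n := by
  intro h
  have h1 := top_of_mem_Idl h 1
  rw [map_one, one_mul, prod_mul_distrib, map_mul] at h1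
  have h2 := Phi_zprod (n := n) n (fun i => bas n i)
  unfold zprod at h2
  rw [h2, top_cyc _ _ _ h0, hn.neg_one_pow] at h1
  have e : Phi n (∏ i ∈ range n, lab n i) *
      ((1 + 1) * ∏ i ∈ range n, al (bas n i) * be (bas n i)) =
      2 * (∏ i ∈ range n, (Phi n (lab n i) * (al (bas n i) * be (bas n i)))) := by
    rw [map_prod, prod_mul_distrib (s := range n) (f := fun i => Phi n (lab n i))]
    ring
  rw [e, top_two_mul, top_full, mul_one] at h1
  exact absurd h1 (by decide)

/-- The ring-theoretic input: for every even `n > 0` there are a commutative ring `Λ`, a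
biadditive map `B : V × V → Λ`, elements `t i` of square zero and vectors `e i`, such that with
`w(x,y) = B(x,y) - B(y,x)` all cyclic products `∏ w(v_i, v_{i+1})` of length `m ≥ 3`, `m ≠ n`,
vanish, while `∏_{i<n} t_i w(e_i, e_{i+1}) ≠ 0`. -/
theorem exists_ring (n : ℕ) (hn : Even n) (h0 : 0 < n) :
    ∃ (L : Type) (_ : CommRing L) (V : Type) (_ : AddCommGroup V) (B : V →+ V →+ L)
      (t : ℕ → L) (e : ℕ → V), (∀ i, t i ^ 2 = 0) ∧
      (∀ m, 3 ≤ m → m ≠ n → ∀ v : ℕ → V, ∏ i ∈ range m,
        (B (v i) (v ((i + 1) % m)) - B (v ((i + 1) % m)) (v i)) = 0) ∧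
      ∏ i ∈ range n, (t i * (B (e i) (e ((i + 1) % n)) - B (e ((i + 1) % n)) (e i))) ≠ 0 := by
  let q : RR n →+* (RR n ⧸ Idl n) := Ideal.Quotient.mk (Idl n)
  let B : (Fin n → ℤ) →+ (Fin n → ℤ) →+ (RR n ⧸ Idl n) :=
    (AddMonoidHom.compHom q.toAddMonoidHom).comp (bform n)
  have hB : ∀ v w, B v w = q (bform n v w) := fun v w => rfl
  refine ⟨RR n ⧸ Idl n, inferInstance, Fin n → ℤ, inferInstance, B, fun i => q (lab n i),
    bas n, ?_, ?_, ?_⟩
  · intro i
    show q (lab n i) ^ 2 = 0
    unfold lab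
    split_ifs with h
    · rw [← map_pow]
      exact Ideal.Quotient.eq_zero_iff_mem.2 (Ideal.subset_span (Or.inr ⟨_, rfl⟩))
    · simp
  · intro m h3 hmn v
    have : q (zprod n m v) = 0 :=
      Ideal.Quotient.eq_zero_iff_mem.2 (Ideal.subset_span (Or.inl ⟨m, v, h3, hmn, rfl⟩))
    rw [← this, zprod, map_prod]
    refine prod_congr rfl fun i _ => ?_
    rw [hB, hB, map_sub]
  · intro h
    apply not_mem_Idl hn h0
    rw [← Ideal.Quotient.eq_zero_iff_mem, ← h, map_prod]
    refine prod_congr rfl fun i _ => ?_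
    rw [hB, hB, map_mul, map_sub]

end Pool.Agent.MP3fd305
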