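import Mathlib
import Pool.Agent.Lib.MP_3fd305_al.Laws
import Pool.Agent.Lib.MP_3fd305_al.Defs

/-!
Laws, verbal subgroups, compactness of consequence, and the words.
-/

namespace Pool.Agent.MP3fd305

open scoped commutatorElement

universe u

/-! ### the lower central series is generated by left-normed commutators -/

/-- left-normed commutators of weight `k + 1` -/
def LN (G : Type*) [Group G] (k : ℕ) : Set G := {g | ∃ (g0 : G) (u : ℕ → G), g = iterComm g0 u k}

theorem LN_conj {G : Type*} [Group G] {k : ℕ} {g : G} (hg : g ∈ LN G k) (y : G) :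
    y * g * y⁻¹ ∈ LN G k := by
  obtain ⟨g0, u, rfl⟩ := hg
  exact ⟨_, _, map_iterComm (MulAut.conj y).toMonoidHom g0 u k⟩

theorem closure_LN_normal (G : Type*) [Group G] (k : ℕ) : (Subgroup.closure (LN G k)).Normal := by
  refine ⟨fun n hn y => ?_⟩
  induction hn using Subgroup.closure_induction with
  | mem x hx => exact Subgroup.subset_closure (LN_conj hx y)
  | one => simp
  | mul a b _ _ ha hb =>
    have : y * (a * b) * y⁻¹ = (y * a * y⁻¹) * (y * b * y⁻¹) := by group
    rw [this]; exact mul_mem ha hb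
  | inv a _ ha =>
    have : y * a⁻¹ * y⁻¹ = (y * a * y⁻¹)⁻¹ := by group
    rw [this]; exact inv_mem ha

theorem iterComm_congr {G : Type*} [Group G] (g : G) {u v : ℕ → G} (k : ℕ)
    (h : ∀ i < k, u i = v i) : iterComm g u k = iterComm g v k := by
  induction k with
  | zero => rfl
  | succ k ih => rw [iterComm, iterComm, ih fun i hi => h i (by omega), h k (by omega)]

theorem LN_succ {G : Type*} [Group G] {k : ℕ} {g : G} (hg : g ∈ LN G k) (y : G) :
    ⁅g, y⁆ ∈ LN G (k + 1) := by
  obtain ⟨g0, u, rfl⟩ := hg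
  refine ⟨g0, fun i => if i = k then y else u i, ?_⟩
  rw [iterComm, if_pos rfl]
  congr 1
  exact iterComm_congr g0 k fun i hi => by rw [if_neg (by omega)]

theorem closure_LN_step {G : Type*} [Group G] {k : ℕ} {g : G}
    (hg : g ∈ Subgroup.closure (LN G k)) (y : G) :
    ⁅g, y⁆ ∈ Subgroup.closure (LN G (k + 1)) := by
  have hn := closure_LN_normal G (k + 1)
  induction hg using Subgroup.closure_induction with
  | mem x hx => exact Subgroup.subset_closure (LN_succ hx y)
  | one => rw [commutatorElement_one_left]; exact one_mem _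
  | mul a b _ _ ha hb =>
    rw [commutatorElement_mul_left_eq_conj_mul]
    exact mul_mem (hn.conj_mem _ hb a) ha
  | inv a _ ha =>
    rw [commutatorElement_inv_left, ← commutatorElement_inv]
    have := hn.conj_mem _ (inv_mem ha) a⁻¹
    rwa [inv_inv] at this

theorem lcs_le_closure (G : Type*) [Group G] (k : ℕ) :
    (⊤ : Subgroup G).lowerCentralSeries k ≤ Subgroup.closure (LN G k) := by
  induction k with
  | zero =>
    intro g _
    exact Subgroup.subset_closure ⟨g, fun _ => 1, rfl⟩
  | succ k ih =>
    rw [Subgroup.lowerCentralSeries_succ, Subgroup.commutator_le]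
    intro g hg y _
    exact closure_LN_step (ih hg) y

theorem commute_closure {G : Type*} [Group G] {S : Set G}
    (h : ∀ x ∈ S, ∀ y ∈ S, x * y = y * x) :
    ∀ x ∈ Subgroup.closure S, ∀ y ∈ Subgroup.closure S, x * y = y * x := by
  have h1 : ∀ x ∈ S, ∀ y ∈ Subgroup.closure S, Commute x y := by
    intro x hx y hy
    induction hy using Subgroup.closure_induction with
    | mem y hy => exact h x hx y hy
    | one => exact Commute.one_right x
    | mul a b _ _ ha hb => exact ha.mul_right hb
    | inv a _ ha => exact ha.inv_right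
  intro x hx y hy
  have : Commute x y := by
    induction hx using Subgroup.closure_induction with
    | mem x hx => exact h1 x hx y hy
    | one => exact Commute.one_left y
    | mul a b _ _ ha hb => exact ha.mul_left hb
    | inv a _ ha => exact ha.inv_left
  exact this

/-- If all left-normed commutators of weight `8` commute then the group is in `𝔄 𝔑_7`. -/
theorem inAN_seven {G : Type*} [Group G] (h : ∀ a b : ℕ → G, ⁅aval a, aval b⁆ = 1) :
    InAN 7 G := by
  refine ⟨(⊤ : Subgroup G).lowerCentralSeries 7, inferInstance, ?_, ?_⟩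
  · have h1 : ∀ x ∈ LN G 7, ∀ y ∈ LN G 7, x * y = y * x := by
      rintro x ⟨g0, u, rfl⟩ y ⟨g1, u', rfl⟩
      have := h (fun i => Nat.casesOn i g0 u) (fun i => Nat.casesOn i g1 u')
      rw [commutatorElement_eq_one_iff_mul_comm] at this
      exact this
    intro x hx y hy
    exact commute_closure h1 x (lcs_le_closure G 7 hx) y (lcs_le_closure G 7 hy)
  · have h2 : (⊤ : Subgroup (G ⧸ (⊤ : Subgroup G).lowerCentralSeries 7)).lowerCentralSeries 7
        = ⊥ := by
      have h3 := Subgroup.map_lowerCentralSeries (⊤ : Subgroup G)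
        (QuotientGroup.mk' ((⊤ : Subgroup G).lowerCentralSeries 7)) 7
      rw [Subgroup.map_top_of_surjective _ (QuotientGroup.mk'_surjective _)] at h3
      rw [← h3, (Subgroup.map_eq_bot_iff _).2]
      rw [QuotientGroup.ker_mk']
    have h4 : Group.IsNilpotent (G ⧸ (⊤ : Subgroup G).lowerCentralSeries 7) :=
      Subgroup.nilpotent_iff_lowerCentralSeries.2 ⟨7, h2⟩
    exact ⟨h4, Subgroup.lowerCentralSeries_eq_bot_iff_nilpotencyClass_le.1 h2⟩

/-! ### consequences of a set of laws -/

/-- values of the words of `W` in the free group -/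
def vals (W : Set (FreeGroup ℕ)) : Set (FreeGroup ℕ) :=
  {g | ∃ w ∈ W, ∃ f : ℕ → FreeGroup ℕ, g = FreeGroup.lift f w}

theorem lift_lift {G : Type*} [Group G] (φ : FreeGroup ℕ →* G) (f : ℕ → FreeGroup ℕ)
    (w : FreeGroup ℕ) : φ (FreeGroup.lift f w) = FreeGroup.lift (fun i => φ (f i)) w := by
  have : φ.comp (FreeGroup.lift f) = FreeGroup.lift (fun i => φ (f i)) := by
    ext i; simp
  rw [← this]; rfl

/-- A word in the verbal subgroup of `W` is a law of every group in the variety of `W`. -/
theorem law_of_mem {W : Set (FreeGroup ℕ)} {w : FreeGroup ℕ}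
    (hw : w ∈ Subgroup.closure (vals W)) {G : Type*} [Group G] (hG : InVariety W G) :
    IsLaw w G := by
  intro f
  have : Subgroup.closure (vals W) ≤ (FreeGroup.lift f).ker := by
    rw [Subgroup.closure_le]
    rintro g ⟨v, hv, f', rfl⟩
    show FreeGroup.lift f (FreeGroup.lift f' v) = 1
    rw [lift_lift]
    exact hG v hv _
  exact this hw

/-- The relatively free group. -/
theorem closure_vals_normal (W : Set (FreeGroup ℕ)) : (Subgroup.closure (vals W)).Normal := by
  refine ⟨fun n hn y => ?_⟩
  induction hn using Subgroup.closure_induction with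
  | mem x hx =>
    obtain ⟨w, hw, f, rfl⟩ := hx
    refine Subgroup.subset_closure ⟨w, hw, fun i => y * f i * y⁻¹, ?_⟩
    exact lift_lift (MulAut.conj y).toMonoidHom f w
  | one => simp
  | mul a b _ _ ha hb =>
    have : y * (a * b) * y⁻¹ = (y * a * y⁻¹) * (y * b * y⁻¹) := by group
    rw [this]; exact mul_mem ha hb
  | inv a _ ha =>
    have : y * a⁻¹ * y⁻¹ = (y * a * y⁻¹)⁻¹ := by group
    rw [this]; exact inv_mem ha

theorem isLaw_ulift {G : Type} [Group G] {w : FreeGroup ℕ} :
    IsLaw w (ULift.{u} G) ↔ IsLaw w G := by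
  constructor
  · intro h f
    have h1 := h fun i => ULift.up (f i)
    have h2 := congrArg (MulEquiv.ulift.toMonoidHom : ULift.{u} G →* G) h1
    rw [map_one] at h2
    rw [← h2]
    have : (MulEquiv.ulift.toMonoidHom : ULift.{u} G →* G).comp
        (FreeGroup.lift fun i => ULift.up (f i)) = FreeGroup.lift f := by
      ext i; simp; rfl
    rw [← this]; rfl
  · intro h f
    apply (MulEquiv.ulift : ULift.{u} G ≃* G).injective
    rw [map_one]
    have : (MulEquiv.ulift.toMonoidHom : ULift.{u} G →* G).comp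
        (FreeGroup.lift f) = FreeGroup.lift fun i => (f i).down := by
      ext i; simp; rfl
    rw [← h fun i => (f i).down, ← this]; rfl

theorem inVariety_ulift {G : Type} [Group G] {W : Set (FreeGroup ℕ)} :
    InVariety W (ULift.{u} G) ↔ InVariety W G :=
  forall₂_congr fun _ _ => isLaw_ulift

/-- If every group (in universe `u`) in the variety of `W` satisfies the law `w`, then `w` lies
in the verbal subgroup of `W`. -/
theorem mem_of_law {W : Set (FreeGroup ℕ)} {w : FreeGroup ℕ}
    (h : ∀ (G : Type u) [Group G], InVariety W G → IsLaw w G) :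
    w ∈ Subgroup.closure (vals W) := by
  have := closure_vals_normal W
  have h1 : InVariety W (FreeGroup ℕ ⧸ Subgroup.closure (vals W)) := by
    intro v hv f
    choose f' hf' using fun i => QuotientGroup.mk'_surjective (Subgroup.closure (vals W)) (f i)
    have h2 : f = fun i => QuotientGroup.mk' (Subgroup.closure (vals W)) (f' i) := by
      funext i; exact (hf' i).symm
    rw [h2, ← lift_lift]
    rw [QuotientGroup.mk'_apply, QuotientGroup.eq_one_iff]
    exact Subgroup.subset_closure ⟨v, hv, f', rfl⟩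
  have h3 := h (ULift.{u} (FreeGroup ℕ ⧸ Subgroup.closure (vals W))) (inVariety_ulift.2 h1)
  rw [isLaw_ulift] at h3
  have h4 := h3 fun i => QuotientGroup.mk' (Subgroup.closure (vals W)) (FreeGroup.of i)
  rw [← lift_lift, QuotientGroup.mk'_apply, QuotientGroup.eq_one_iff] at h4
  have h5 : FreeGroup.lift FreeGroup.of w = w := by
    have : (FreeGroup.lift FreeGroup.of : FreeGroup ℕ →* FreeGroup ℕ) = MonoidHom.id _ := by
      ext i; simp
    rw [this]; rfl
  rwa [h5] at h4

/-! ### the words -/

/-- variables of kind `k` -/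
def wd (k i : ℕ) : FreeGroup ℕ := FreeGroup.of (6 * i + k)

/-- the word `w_m` -/
def wWord (m : ℕ) : FreeGroup ℕ := wval m (wd 4) (wd 0) (wd 1) (wd 2) (wd 3)

/-- the word `[[a_0,...,a_7],[b_0,...,b_7]]` -/
def dWord : FreeGroup ℕ := ⁅aval (wd 4), aval (wd 5)⁆

/-- assignment of values to the six kinds of variables -/
def asg {G : Type*} (x p q r a b : ℕ → G) (k : ℕ) : G :=
  if k % 6 = 0 then x (k / 6) else if k % 6 = 1 then p (k / 6) else if k % 6 = 2 then q (k / 6)
  else if k % 6 = 3 then r (k / 6) else if k % 6 = 4 then a (k / 6) else b (k / 6)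

theorem wWord_law {G : Type*} [Group G] (m : ℕ) :
    IsLaw (wWord m) G ↔ ∀ a x p q r : ℕ → G, wval m a x p q r = 1 := by
  have key : ∀ f : ℕ → G, FreeGroup.lift f (wWord m) = wval m (fun i => f (6 * i + 4))
      (fun i => f (6 * i + 0)) (fun i => f (6 * i + 1)) (fun i => f (6 * i + 2))
      (fun i => f (6 * i + 3)) := by
    intro f
    unfold wWord
    rw [map_wval]
    simp [wd]
  constructor
  · intro h a x p q r
    have h1 := h (asg x p q r a a)
    rw [key] at h1
    have e : ∀ i, (6 * i + 0) % 6 = 0 ∧ (6 * i + 0) / 6 = i ∧ (6 * i + 1) % 6 = 1 ∧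
        (6 * i + 1) / 6 = i ∧ (6 * i + 2) % 6 = 2 ∧ (6 * i + 2) / 6 = i ∧ (6 * i + 3) % 6 = 3 ∧
        (6 * i + 3) / 6 = i ∧ (6 * i + 4) % 6 = 4 ∧ (6 * i + 4) / 6 = i := by
      intro i; omega
    have e0 : (fun i => asg x p q r a a (6 * i + 0)) = x := by
      funext i; obtain ⟨h0, h1, -⟩ := e i; simp only [asg, h0, h1, if_true]
    have e1 : (fun i => asg x p q r a a (6 * i + 1)) = p := by
      funext i; obtain ⟨-, -, h0, h1, -⟩ := e i; simp [asg, h0, h1]
    have e2 : (fun i => asg x p q r a a (6 * i + 2)) = q := by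
      funext i; obtain ⟨-, -, -, -, h0, h1, -⟩ := e i; simp [asg, h0, h1]
    have e3 : (fun i => asg x p q r a a (6 * i + 3)) = r := by
      funext i; obtain ⟨-, -, -, -, -, -, h0, h1, -⟩ := e i; simp [asg, h0, h1]
    have e4 : (fun i => asg x p q r a a (6 * i + 4)) = a := by
      funext i; obtain ⟨-, -, -, -, -, -, -, -, h0, h1⟩ := e i; simp [asg, h0, h1]
    rwa [e0, e1, e2, e3, e4] at h1
  · intro h f
    rw [key]
    exact h _ _ _ _ _

theorem dWord_law {G : Type*} [Group G] :
    IsLaw dWord G ↔ ∀ a b : ℕ → G, ⁅aval a, aval b⁆ = 1 := by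
  have key : ∀ f : ℕ → G, FreeGroup.lift f dWord =
      ⁅aval (fun i => f (6 * i + 4)), aval (fun i => f (6 * i + 5))⁆ := by
    intro f
    unfold dWord
    rw [map_commutatorElement, map_aval, map_aval]
    simp [wd]
  constructor
  · intro h a b
    have h1 := h (asg a a a a a b)
    rw [key] at h1
    have e : ∀ i, (6 * i + 4) % 6 = 4 ∧ (6 * i + 4) / 6 = i ∧ (6 * i + 5) % 6 = 5 ∧
        (6 * i + 5) / 6 = i := by
      intro i; omega
    have e4 : (fun i => asg a a a a a b (6 * i + 4)) = a := by
      funext i; obtain ⟨h0, h1, -⟩ := e i; simp [asg, h0, h1]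
    have e5 : (fun i => asg a a a a a b (6 * i + 5)) = b := by
      funext i; obtain ⟨-, -, h0, h1⟩ := e i; simp [asg, h0, h1]
    rwa [e4, e5] at h1
  · intro h f
    rw [key]
    exact h _ _

end Pool.Agent.MP3fd305
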