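import Mathlib
import Pool.Agent.Lib.MP_3fd305_al.Ring
import Pool.Agent.Lib.MP_3fd305_al.Words

/-!
The variety defined by `dWord` and the words `wWord m`, `m ≥ 3`, is contained in `𝔄 𝔑_7` and is
not finitely based.
-/

namespace Pool.Agent.MP3fd305

open scoped commutatorElement

universe u

/-- For every even `n > 0` there is a group satisfying `dWord` and all `wWord m` with `m ≥ 3`,
`m ≠ n`, but not `wWord n`. -/
theorem exists_group (n : ℕ) (hn : Even n) (h0 : 0 < n) :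
    ∃ (G : Type) (_ : Group G), IsLaw dWord G ∧ (∀ m, 3 ≤ m → m ≠ n → IsLaw (wWord m) G) ∧
      ¬ IsLaw (wWord n) G := by
  obtain ⟨L, _, V, _, B, t, e, ht, hB, hne⟩ := exists_ring n hn h0
  refine ⟨Gsub B, inferInstance, ?_, ?_, ?_⟩
  · rw [dWord_law]
    intro a b
    apply (Gsub B).subtype_injective
    rw [map_commutatorElement, map_aval, map_aval, map_one]
    exact d_law _ _ (fun i => (a i).2) (fun i => (b i).2)
  · intro m h3 hmn
    rw [wWord_law]
    intro a x p q r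
    apply (Gsub B).subtype_injective
    rw [map_wval, map_one]
    exact w_law m (hB m h3 hmn) _ _ _ _ _ (fun i => (a i).2) (fun i => (p i).2)
      (fun i => (q i).2) (fun i => (r i).2)
  · rw [wWord_law]
    intro h
    have h1 := h (fun i => if i = 0 then ⟨elf (ind B), elf_mem _⟩ else ⟨elh (sS B), elh_mem _⟩)
      (fun i => ⟨elh ⟨e i, 0, 0, 0⟩, elh_mem _⟩)
      (fun i => ⟨ela (Q B (t i) (ht i)), ela_mem (Q_adm _ _)⟩)
      (fun _ => ⟨elh (sS B), elh_mem _⟩) (fun _ => ⟨elh (tT B), elh_mem _⟩)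
    have h2 := congrArg (Gsub B).subtype h1
    rw [map_wval, map_one] at h2
    refine w_not n t ht e hne ?_
    rw [← h2]
    congr 1
    funext i
    split_ifs <;> rfl

/-- the set of words -/
def WS : Set (FreeGroup ℕ) := {w | w = dWord ∨ ∃ m, 3 ≤ m ∧ w = wWord m}

/-- finite pieces -/
def WSn (n : ℕ) : Set (FreeGroup ℕ) := {w | w = dWord ∨ ∃ m, 3 ≤ m ∧ m < n ∧ w = wWord m}

theorem WS_inAN (G : Type*) [Group G] (h : InVariety WS G) : InAN 7 G := by
  have h1 := h dWord (Or.inl rfl)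
  rw [dWord_law] at h1
  exact inAN_seven h1

theorem vals_mono {W W' : Set (FreeGroup ℕ)} (h : W ⊆ W') : vals W ⊆ vals W' := by
  rintro g ⟨w, hw, f, rfl⟩
  exact ⟨w, h hw, f, rfl⟩

theorem WSn_mono {m n : ℕ} (h : m ≤ n) : WSn m ⊆ WSn n := by
  rintro w (rfl | ⟨k, h3, hk, rfl⟩)
  · exact Or.inl rfl
  · exact Or.inr ⟨k, h3, by omega, rfl⟩

/-- compactness -/
theorem exists_level {w : FreeGroup ℕ} (hw : w ∈ Subgroup.closure (vals WS)) :
    ∃ n, w ∈ Subgroup.closure (vals (WSn n)) := by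
  induction hw using Subgroup.closure_induction with
  | mem x hx =>
    obtain ⟨v, hv, f, rfl⟩ := hx
    rcases hv with rfl | ⟨m, h3, rfl⟩
    · exact ⟨0, Subgroup.subset_closure ⟨_, Or.inl rfl, f, rfl⟩⟩
    · exact ⟨m + 1, Subgroup.subset_closure ⟨_, Or.inr ⟨m, h3, by omega, rfl⟩, f, rfl⟩⟩
  | one => exact ⟨0, one_mem _⟩
  | mul a b _ _ ha hb =>
    obtain ⟨n, hn⟩ := ha
    obtain ⟨k, hk⟩ := hb
    exact ⟨max n k, mul_mem
      (Subgroup.closure_mono (vals_mono (WSn_mono (le_max_left n k))) hn)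
      (Subgroup.closure_mono (vals_mono (WSn_mono (le_max_right n k))) hk)⟩
  | inv a _ ha =>
    obtain ⟨n, hn⟩ := ha
    exact ⟨n, inv_mem hn⟩

theorem not_finitely_based :
    ¬ ∃ F : Set (FreeGroup ℕ), F.Finite ∧
      ∀ (G : Type u) [Group G], InVariety F G ↔ InVariety WS G := by
  rintro ⟨F, hF, h⟩
  have h1 : ∀ w ∈ F, ∃ n, w ∈ Subgroup.closure (vals (WSn n)) := by
    intro w hw
    exact exists_level (mem_of_law fun G _ hG => (h G).2 hG w hw)
  choose! N hN using h1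
  obtain ⟨M, hM⟩ : ∃ M, ∀ w ∈ F, N w ≤ M := by
    obtain ⟨M, hM⟩ := (hF.image N).bddAbove
    exact ⟨M, fun w hw => hM ⟨w, hw, rfl⟩⟩
  obtain ⟨n, hnM, hn, hn0, hn3⟩ : ∃ n, M ≤ n ∧ Even n ∧ 0 < n ∧ 3 ≤ n :=
    ⟨2 * M + 4, by omega, ⟨M + 2, by omega⟩, by omega, by omega⟩
  obtain ⟨G, _, hd, hlt, hnot⟩ := exists_group n hn hn0
  have h2 : InVariety (WSn n) G := by
    rintro w (rfl | ⟨m, h3, hm, rfl⟩)
    · exact hd
    · exact hlt m h3 (by omega)
  have h3 : InVariety F G := fun w hw =>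
    law_of_mem (Subgroup.closure_mono (vals_mono (WSn_mono ((hM w hw).trans hnM))) (hN w hw)) h2
  have h4 : InVariety WS (ULift.{u} G) := (h _).1 (inVariety_ulift.2 h3)
  exact hnot ((inVariety_ulift.1 h4) _ (Or.inr ⟨n, hn3, rfl⟩))

end Pool.Agent.MP3fd305
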